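import Pool.Agent.Q262.Circ.OnCircle
import Pool.Agent.Q262.Circ.I1748

/-!
The strong MC number `1748` has an MC-circle whose lattice points have no mirror symmetry.
-/

set_option autoImplicit false
set_option maxRecDepth 100000

namespace Pool.Agent.Results.MP_719c9c_nt.NoMirror

open Q262.Circ

/-- The restriction to the lattice of a lattice-invariant reflection: its axis is `x = m / 2`,
`y = m / 2`, `y = x + c` or `y = -x + c` with integers `m`, `c`. -/
def LatticeReflection (σ : ℤ × ℤ → ℤ × ℤ) : Prop :=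
  (∃ m : ℤ, ∀ p : ℤ × ℤ, σ p = (m - p.1, p.2)) ∨
  (∃ m : ℤ, ∀ p : ℤ × ℤ, σ p = (p.1, m - p.2)) ∨
  (∃ c : ℤ, ∀ p : ℤ × ℤ, σ p = (p.2 - c, p.1 + c)) ∨
  (∃ c : ℤ, ∀ p : ℤ × ℤ, σ p = (c - p.2, c - p.1))

theorem coords : ((I1748.X : ℝ) / I1748.D = 9 / 26) ∧ ((I1748.Y : ℝ) / I1748.D = 5 / 26) ∧
    ((I1748.N : ℝ) / (I1748.D : ℝ) ^ 2 = 189125 / 338) := by
  unfold I1748.X I1748.D I1748.Y I1748.N
  norm_num

theorem isMax : MCCircle 1748 (9 / 26) (5 / 26) (Real.sqrt (189125 / 338)) := by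
  have h := I1748.isMax
  rwa [coords.1, coords.2.1, coords.2.2] at h

theorem points : onCircle (9 / 26) (5 / 26) (Real.sqrt (189125 / 338)) = {p | p ∈ I1748.bs} := by
  have h := I1748.hex.onCircle_eq
  rwa [coords.1, coords.2.1, coords.2.2] at h

/-- The number `1748` is a strong MC number, the circle with centre `(9/26, 5/26)` and squared
radius `189125/338` is an MC-circle of `1748`, and no lattice-invariant reflection maps the set
of lattice points on this circle onto itself. -/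
theorem result : StrongMC 1748 ∧ MCCircle 1748 (9 / 26) (5 / 26) (Real.sqrt (189125 / 338)) ∧
    ∀ σ : ℤ × ℤ → ℤ × ℤ, LatticeReflection σ →
      σ '' onCircle (9 / 26) (5 / 26) (Real.sqrt (189125 / 338)) ≠
        onCircle (9 / 26) (5 / 26) (Real.sqrt (189125 / 338)) := by
  refine ⟨⟨⟨_, _, _, isMax⟩, I1748.nonMC_1749⟩, isMax, ?_⟩
  intro σ hσ h
  rw [points] at h
  have hmem : ∀ p ∈ I1748.bs, σ p ∈ I1748.bs := fun p hp => by
    have h1 : σ p ∈ σ '' {p | p ∈ I1748.bs} := ⟨p, hp, rfl⟩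
    rw [h] at h1
    exact h1
  have h1 := hmem (-23, 4) (by decide)
  have h2 := hmem (24, 0) (by decide)
  rcases hσ with ⟨m, hm⟩ | ⟨m, hm⟩ | ⟨c, hm⟩ | ⟨c, hm⟩ <;>
  · rw [hm] at h1 h2
    simp only [I1748.bs, List.mem_cons, List.not_mem_nil, or_false, Prod.mk.injEq] at h1 h2
    omega

end Pool.Agent.Results.MP_719c9c_nt.NoMirror
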